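import Mathlib
namespace Pool.Agent.Helper91.LR

/-- The elementary quadratic bound. -/
theorem poly_core {B N M K t1 t2 : ℤ} (hB : 2 ≤ B) (hNpos : 0 ≤ N) (hM : (B - 1) * B ≤ 2 * M)
    (hK : (B - 2) * (B - 1) ≤ 2 * K) (c1 : M + t1 ≤ N) (c2 : K + t2 ≤ N)
    (e0 : (N + 1) * B ≤ (N + B) * t1)
    (e1 : (N - t1 + 1) * (B - 1) + (t1 + 1) * (M + 1 - 2 * t1) ≤ (N - t1 + B - 1) * (t2 - t1)) :
    B * (B + 1) ≤ 2 * N := by
  by_contra hcon
  push Not at hcon
  obtain ⟨k, hk⟩ : Even (B * (B + 1)) := Int.even_mul_succ_self B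
  have hN : 2 * N ≤ B * (B + 1) - 2 := by omega
  have ht1 : t1 ≤ B - 1 := by nlinarith
  have ht1' : B - 1 ≤ t1 := by
    by_contra hlt
    push Not at hlt
    have h1 : t1 ≤ B - 2 := by omega
    have h2 : (N + B) * t1 ≤ (N + B) * (B - 2) := mul_le_mul_of_nonneg_left h1 (by linarith)
    nlinarith
  have ht : t1 = B - 1 := le_antisymm ht1 ht1'
  subst ht
  have hN2 : 2 * N = B * (B + 1) - 2 := by nlinarith
  have hM2 : 2 * M = (B - 1) * B := by nlinarith
  have ht2 : t2 ≤ 2 * B - 2 := by nlinarith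
  have hB5 : 5 ≤ B := by
    by_contra hlt
    push Not at hlt
    have h1 : N ≤ B ^ 2 - 2 * B := by nlinarith
    have : B = 2 ∨ B = 3 ∨ B = 4 := by omega
    rcases this with rfl | rfl | rfl <;> omega
  have h1 : (N - (B - 1) + B - 1) * (t2 - (B - 1)) ≤ N * (B - 1) := by
    have : N - (B - 1) + B - 1 = N := by ring
    rw [this]
    exact mul_le_mul_of_nonneg_left (by linarith) hNpos
  have h2 : (N - (B - 1) + 1) * (B - 1) + (B - 1 + 1) * (M + 1 - 2 * (B - 1)) ≤ N * (B - 1) :=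
    e1.trans h1
  have h3 : 2 * ((N - (B - 1) + 1) * (B - 1) + (B - 1 + 1) * (M + 1 - 2 * (B - 1)) - N * (B - 1))
      = B * (B - 3) * (B - 4) - 4 + 0 * (2 * N) := by
    have : (B - 1 + 1) * (2 * M) = B * ((B - 1) * B) := by rw [hM2]; ring
    nlinarith
  have h4 : 6 ≤ B * (B - 3) * (B - 4) - 4 := by
    have h5 : 2 ≤ (B - 3) * (B - 4) := by nlinarith
    nlinarith
  linarith

/-- the quadratic bound for the sequence -/
theorem poly_bound (v : ℕ) (s : ℕ → ℕ) (hge : ∀ b, b ≤ v → b ≤ s b)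
    (hseq : ∀ b, 1 ≤ b → b ≤ v → ∃ t : ℕ → ℕ, t 0 = 0 ∧ (∀ g, g ≤ b → s (b - g) + t g ≤ s b) ∧
      ∀ g, g < b → ((s b : ℤ) - t g + 1) * ((b : ℤ) - g) +
        ((t g : ℤ) + g) * ((s (b - 1) : ℤ) + 1 - 2 * t g)
        ≤ ((s b : ℤ) - t g + b - g) * ((t (g + 1) : ℤ) - t g)) :
    ∀ b, b ≤ v → b * (b + 1) ≤ 2 * s b := by
  intro b
  induction b using Nat.strong_induction_on with
  | _ b ih =>
    intro hb
    rcases Nat.lt_or_ge b 2 with h | h
    · have := hge b hb
      interval_cases b <;> omega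
    · obtain ⟨t, ht0, ht1, ht2⟩ := hseq b (by omega) hb
      have i1 := ih (b - 1) (by omega) (by omega)
      have i2 := ih (b - 2) (by omega) (by omega)
      have j1 := ht1 1 (by omega)
      have j2 := ht1 2 (by omega)
      have k0 := ht2 0 (by omega)
      have k1 := ht2 1 (by omega)
      obtain ⟨c, rfl⟩ : ∃ c, b = c + 2 := ⟨b - 2, by omega⟩
      have r1 : c + 2 - 1 = c + 1 := by omega
      have r2 : c + 2 - 2 = c := by omega
      rw [r1] at i1 j1 k1 k0
      rw [r2] at i2 j2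
      rw [ht0] at k0
      have key := poly_core (B := (c : ℤ) + 2) (N := s (c + 2)) (M := s (c + 1)) (K := s c)
        (t1 := t 1) (t2 := t 2) (by omega) (by positivity)
        (by
          have : ((c : ℤ) + 1) * (c + 2) ≤ 2 * s (c + 1) := by exact_mod_cast i1
          linarith)
        (by
          have : (c : ℤ) * (c + 1) ≤ 2 * s c := by exact_mod_cast i2
          linarith)
        (by exact_mod_cast j1) (by exact_mod_cast j2)
        (by push_cast at k0; linarith)
        (by push_cast at k1; norm_num at k1; linarith)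
      have : ((c : ℤ) + 2) * (c + 2 + 1) ≤ 2 * s (c + 2) := key
      exact_mod_cast this

end Pool.Agent.Helper91.LR
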