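import Mathlib

/-! Small values: `2 ^ √(2 b) ≤ b (b + 1) / 2` for `3 ≤ b ≤ 52`. -/

namespace Pool.Agent.Helper91.LR

theorem small_aux (b p c : ℕ) (h1 : 128 * b ≤ p ^ 2) (h2 : 2 ^ p ≤ c ^ 8) :
    (2 : ℝ) ^ Real.sqrt (2 * b) ≤ c := by
  have h3 : Real.sqrt (2 * b) ≤ p / 8 := by
    apply Real.sqrt_le_iff.2
    refine ⟨by positivity, ?_⟩
    have : (128 : ℝ) * b ≤ (p : ℝ) ^ 2 := by exact_mod_cast h1
    have e : ((p : ℝ) / 8) ^ 2 = (p : ℝ) ^ 2 / 64 := by ring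
    rw [e]
    linarith
  have h4 : (2 : ℝ) ^ Real.sqrt (2 * b) ≤ (2 : ℝ) ^ ((p : ℝ) / 8) :=
    Real.rpow_le_rpow_of_exponent_le (by norm_num) h3
  refine h4.trans ?_
  have h5 : ((2 : ℝ) ^ ((p : ℝ) / 8)) ^ 8 = 2 ^ p := by
    rw [← Real.rpow_natCast, ← Real.rpow_mul (by norm_num), ← Real.rpow_natCast 2 p]
    congr 1
    push_cast
    ring
  have h6 : ((2 : ℝ) ^ ((p : ℝ) / 8)) ^ 8 ≤ (c : ℝ) ^ 8 := by
    rw [h5]
    exact_mod_cast h2
  exact le_of_pow_le_pow_left₀ (by norm_num) (by positivity) h6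

theorem small_table (b : ℕ) (h3 : 3 ≤ b) (h52 : b ≤ 52) :
    ∃ p : ℕ, 128 * b ≤ p ^ 2 ∧ 2 ^ p ≤ (b * (b + 1) / 2) ^ 8 := by
  interval_cases b
  · exact ⟨20, by norm_num, by norm_num⟩
  · exact ⟨23, by norm_num, by norm_num⟩
  · exact ⟨26, by norm_num, by norm_num⟩
  · exact ⟨28, by norm_num, by norm_num⟩
  · exact ⟨30, by norm_num, by norm_num⟩
  · exact ⟨32, by norm_num, by norm_num⟩
  · exact ⟨34, by norm_num, by norm_num⟩
  · exact ⟨36, by norm_num, by norm_num⟩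
  · exact ⟨38, by norm_num, by norm_num⟩
  · exact ⟨40, by norm_num, by norm_num⟩
  · exact ⟨41, by norm_num, by norm_num⟩
  · exact ⟨43, by norm_num, by norm_num⟩
  · exact ⟨44, by norm_num, by norm_num⟩
  · exact ⟨46, by norm_num, by norm_num⟩
  · exact ⟨47, by norm_num, by norm_num⟩
  · exact ⟨48, by norm_num, by norm_num⟩
  · exact ⟨50, by norm_num, by norm_num⟩
  · exact ⟨51, by norm_num, by norm_num⟩
  · exact ⟨52, by norm_num, by norm_num⟩
  · exact ⟨54, by norm_num, by norm_num⟩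
  · exact ⟨55, by norm_num, by norm_num⟩
  · exact ⟨56, by norm_num, by norm_num⟩
  · exact ⟨57, by norm_num, by norm_num⟩
  · exact ⟨58, by norm_num, by norm_num⟩
  · exact ⟨59, by norm_num, by norm_num⟩
  · exact ⟨60, by norm_num, by norm_num⟩
  · exact ⟨61, by norm_num, by norm_num⟩
  · exact ⟨62, by norm_num, by norm_num⟩
  · exact ⟨63, by norm_num, by norm_num⟩
  · exact ⟨64, by norm_num, by norm_num⟩
  · exact ⟨65, by norm_num, by norm_num⟩
  · exact ⟨66, by norm_num, by norm_num⟩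
  · exact ⟨67, by norm_num, by norm_num⟩
  · exact ⟨68, by norm_num, by norm_num⟩
  · exact ⟨69, by norm_num, by norm_num⟩
  · exact ⟨70, by norm_num, by norm_num⟩
  · exact ⟨71, by norm_num, by norm_num⟩
  · exact ⟨72, by norm_num, by norm_num⟩
  · exact ⟨73, by norm_num, by norm_num⟩
  · exact ⟨74, by norm_num, by norm_num⟩
  · exact ⟨75, by norm_num, by norm_num⟩
  · exact ⟨76, by norm_num, by norm_num⟩
  · exact ⟨76, by norm_num, by norm_num⟩
  · exact ⟨77, by norm_num, by norm_num⟩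
  · exact ⟨78, by norm_num, by norm_num⟩
  · exact ⟨79, by norm_num, by norm_num⟩
  · exact ⟨80, by norm_num, by norm_num⟩
  · exact ⟨80, by norm_num, by norm_num⟩
  · exact ⟨81, by norm_num, by norm_num⟩
  · exact ⟨82, by norm_num, by norm_num⟩

theorem small_bound (b : ℕ) (h3 : 3 ≤ b) (h52 : b ≤ 52) :
    (2 : ℝ) ^ Real.sqrt (2 * b) ≤ (b : ℝ) * (b + 1) / 2 := by
  obtain ⟨p, h1, h2⟩ := small_table b h3 h52
  refine (small_aux b p _ h1 h2).trans ?_
  have : (b * (b + 1) / 2) * 2 ≤ b * (b + 1) := Nat.div_mul_le_self _ _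
  have h : (((b * (b + 1) / 2 : ℕ) : ℝ)) * 2 ≤ (b : ℝ) * (b + 1) := by exact_mod_cast this
  linarith

end Pool.Agent.Helper91.LR
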