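import Pool.Agent.Helper91.LR.Sharp
import Pool.Agent.Helper91.LR.Poly
import Pool.Agent.Helper91.LR.Small

/-! The sharp numeric theorem. -/

namespace Pool.Agent.Helper91.LR

theorem two_rpow_ge (x : ℝ) : 1 + x * Real.log 2 ≤ (2 : ℝ) ^ x := by
  rw [Real.rpow_def_of_pos (by norm_num)]
  have := Real.add_one_le_exp (Real.log 2 * x)
  linarith

theorem exp_bound : (165 / 1000 : ℝ) ≤ Real.exp (-(9 / 5)) := by
  have h1 : Real.exp (9 / 5) ^ 5 = Real.exp 1 ^ 9 := by
    rw [← Real.exp_nat_mul, ← Real.exp_nat_mul]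
    norm_num
  have h2 : Real.exp 1 ^ 9 ≤ (2.7182818286 : ℝ) ^ 9 :=
    pow_le_pow_left₀ (Real.exp_pos _).le Real.exp_one_lt_d9.le 9
  have h3 : (2.7182818286 : ℝ) ^ 9 ≤ (1000 / 165) ^ 5 := by norm_num
  have h4 : Real.exp (9 / 5) ≤ 1000 / 165 := by
    apply le_of_pow_le_pow_left₀ (n := 5) (by norm_num) (by norm_num)
    rw [h1]
    exact h2.trans h3
  rw [Real.exp_neg]
  rw [le_inv_comm₀ (by norm_num) (Real.exp_pos _)]
  calc _ ≤ _ := h4
    _ = _ := by norm_num

theorem pow_bound {D : ℝ} (hD : 10 ≤ D) (g : ℕ) (hg : (g : ℝ) ≤ D - 3) :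
    (165 / 1000 : ℝ) ≤ (1 - 9 / 5 / D) ^ g := by
  have hD0 : 0 < D := by linarith
  have hD1 : 0 < D - 9 / 5 := by linarith
  have h1 : Real.exp (-(9 / 5 / (D - 9 / 5))) ≤ 1 - 9 / 5 / D := by
    rw [Real.exp_neg]
    have h2 := Real.add_one_le_exp (9 / 5 / (D - 9 / 5))
    have h3 : 9 / 5 / (D - 9 / 5) + 1 = D / (D - 9 / 5) := by
      rw [eq_div_iff hD1.ne', add_mul, div_mul_cancel₀ _ hD1.ne']
      ring
    rw [h3] at h2
    have h4 : (Real.exp (9 / 5 / (D - 9 / 5)))⁻¹ ≤ (D / (D - 9 / 5))⁻¹ :=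
      inv_anti₀ (by positivity) h2
    calc _ ≤ _ := h4
      _ = 1 - 9 / 5 / D := by field_simp
  calc (165 / 1000 : ℝ) ≤ Real.exp (-(9 / 5)) := exp_bound
    _ ≤ Real.exp (g * (-(9 / 5 / (D - 9 / 5)))) := by
        apply Real.exp_le_exp.2
        have h5 : (g : ℝ) * (9 / 5 / (D - 9 / 5)) ≤ 9 / 5 := by
          rw [← mul_div_assoc, div_le_iff₀ hD1]
          nlinarith
        linarith
    _ = Real.exp (-(9 / 5 / (D - 9 / 5))) ^ g := by rw [Real.exp_nat_mul]
    _ ≤ _ := pow_le_pow_left₀ (Real.exp_pos _).le h1 g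

theorem big_step {b : ℕ} {s : ℕ → ℕ} (hb53 : 53 ≤ b)
    (hmono : ∀ c, c < b → s c ≤ s (c + 1)) (hge : ∀ c, c ≤ b → c ≤ s c)
    (hpoly : b * (b + 1) ≤ 2 * s b)
    (ih : ∀ c : ℕ, 3 ≤ c → c < b → (2 : ℝ) ^ Real.sqrt (2 * c) ≤ s c)
    (t : ℕ → ℕ) (ht0 : t 0 = 0) (ht1 : ∀ g, g ≤ b → s (b - g) + t g ≤ s b)
    (ht2 : ∀ g, g < b → ((s b : ℝ) - t g) * ((b : ℝ) - g) + ((t g : ℝ) + g) *
      ((s (b - 1) : ℝ) - 2 * t g) ≤ ((s b : ℝ) - t g + b - g) * ((t (g + 1) : ℝ) - t g)) :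
    (2 : ℝ) ^ Real.sqrt (2 * b) ≤ s b := by
  by_contra hcon
  push Not at hcon
  set D := Real.sqrt (2 * b) with hDdef
  set N : ℝ := (s b : ℝ) with hNdef
  set M : ℝ := (s (b - 1) : ℝ) with hMdef
  have hbR : (53 : ℝ) ≤ b := by exact_mod_cast hb53
  have hD2 : D ^ 2 = 2 * b := Real.sq_sqrt (by positivity)
  have hD10 : 10 ≤ D := by
    apply Real.le_sqrt_of_sq_le
    norm_num
    linarith
  have hD0 : 0 < D := by linarith
  have hNb : (b : ℝ) ^ 2 / 2 ≤ N := by
    have : (b : ℝ) * (b + 1) ≤ 2 * N := by rw [hNdef]; exact_mod_cast hpoly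
    nlinarith
  have hN0 : 0 < N := by nlinarith
  have hMN : M ≤ N := by
    have h1 := hmono (b - 1) (by omega)
    rw [show b - 1 + 1 = b by omega] at h1
    rw [hMdef, hNdef]
    exact_mod_cast h1
  -- the value at `b - 1`
  set B := Real.sqrt (2 * ((b : ℝ) - 1)) with hBdef
  have hBlow : D - 101 / 100 / D ≤ B := by
    apply Real.le_sqrt_of_sq_le
    have h1 : (D - 101 / 100 / D) ^ 2 = D ^ 2 - 101 / 50 + (101 / 100) ^ 2 / D ^ 2 := by
      field_simp
      ring
    rw [h1, hD2]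
    have h2 : (101 / 100 : ℝ) ^ 2 / (2 * b) ≤ 1 / 50 := by
      rw [div_le_div_iff₀ (by positivity) (by norm_num)]
      linarith
    linarith
  have hMB : (2 : ℝ) ^ B ≤ M := by
    have h1 := ih (b - 1) (by omega) (by omega)
    rw [Nat.cast_sub (by omega), Nat.cast_one] at h1
    exact h1
  have hlog : Real.log 2 < 0.6931471808 := Real.log_two_lt_d9
  have hlog0 : 0 < Real.log 2 := Real.log_pos (by norm_num)
  have hdB : (D - B) * Real.log 2 ≤ 7001 / 10000 / D := by
    have h1 : D - B ≤ 101 / 100 / D := by linarith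
    have h2 : (D - B) * Real.log 2 ≤ 101 / 100 / D * Real.log 2 :=
      mul_le_mul_of_nonneg_right h1 hlog0.le
    have h3 : 101 / 100 / D * Real.log 2 ≤ 101 / 100 / D * 0.6931471808 :=
      mul_le_mul_of_nonneg_left hlog.le (by positivity)
    have h4 : 101 / 100 / D * 0.6931471808 ≤ 7001 / 10000 / D := by
      rw [div_mul_eq_mul_div]
      exact div_le_div_of_nonneg_right (by norm_num) hD0.le
    linarith
  have hMlow : N - M ≤ 7001 / 10000 / D * N := by
    have h1 : (2 : ℝ) ^ B = 2 ^ D * 2 ^ (B - D) := by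
      rw [← Real.rpow_add (by norm_num)]; congr 1; ring
    have h2 := two_rpow_ge (B - D)
    have h3 : 1 - 7001 / 10000 / D ≤ (2 : ℝ) ^ (B - D) := by linarith
    have h4 : 0 ≤ 1 - 7001 / 10000 / D := by
      have : 7001 / 10000 / D ≤ 1 := by rw [div_le_one hD0]; linarith
      linarith
    have h5 : N * (1 - 7001 / 10000 / D) ≤ 2 ^ D * 2 ^ (B - D) :=
      mul_le_mul hcon.le h3 h4 (by positivity)
    rw [← h1] at h5
    linarith
  -- floor
  set n := ⌊D⌋₊ with hn
  have hnD : (n : ℝ) ≤ D := Nat.floor_le hD0.le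
  have hDn : D < n + 1 := Nat.lt_floor_add_one D
  have hn10 : 10 ≤ n := Nat.le_floor (by exact_mod_cast hD10)
  have hDb : D ≤ b / 5 := by nlinarith
  have hnb : n + 3 < b := by
    have : ((n : ℝ)) + 3 < b := by linarith
    exact_mod_cast this
  obtain ⟨g0, hg0⟩ : ∃ g0, n = g0 + 3 := ⟨n - 3, by omega⟩
  have hg0D : (g0 : ℝ) ≤ D - 3 := by
    have : (n : ℝ) = g0 + 3 := by rw [hg0]; push_cast; ring
    linarith
  -- existence of a large `t`
  have hex : ∃ g, g ≤ g0 ∧ N < 3 * (t g : ℝ) := by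
    by_contra hno
    push Not at hno
    set e : ℝ := 18 / 5 / D with he
    have he0 : 0 < e := by positivity
    have he1 : e ≤ 2 / 5 := by
      rw [he, div_le_iff₀ hD0]; linarith
    have hW : ∀ g, g ≤ g0 → (2 - e) ^ g * (b / N) ≤ ((t g : ℝ) + b) / (N - t g) := by
      intro g
      induction g with
      | zero => intro _; simp [ht0]
      | succ g ihg =>
        intro hg
        have h1 := ihg (by omega)
        have h3t := hno g (by omega)
        have htg : (0 : ℝ) ≤ t g := by positivity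
        have hgD : (g : ℝ) ≤ D := by
          have : (g : ℝ) ≤ g0 := by exact_mod_cast (by omega : g ≤ g0)
          linarith
        have hgb : (g : ℝ) < b := by
          have : g < b := by omega
          exact_mod_cast this
        have hyN : 2 / 3 * N ≤ N - t g := by linarith
        have hstep := grow_step (N := N) (M := M) (t := t g) (t' := t (g + 1)) (b := b) (g := g)
          (e := e) htg h3t hN0 (by positivity) hMN ?_ he0 he1 (by positivity) hgb ?_ ?_
          (ht2 g (by omega))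
        · calc _ = (2 - e) * ((2 - e) ^ g * (b / N)) := by ring
            _ ≤ (2 - e) * (((t g : ℝ) + b) / (N - t g)) :=
                mul_le_mul_of_nonneg_left h1 (by linarith)
            _ ≤ _ := hstep
        · have h2 : e * (2 / 3 * N) ≤ e * (N - t g) := mul_le_mul_of_nonneg_left hyN he0.le
          have h3 : 7001 / 10000 / D * N ≤ 3 / 10 * (e * (2 / 3 * N)) := by
            have : 3 / 10 * (e * (2 / 3 * N)) = 7200 / 10000 / D * N := by rw [he]; ring
            rw [this]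
            apply mul_le_mul_of_nonneg_right _ hN0.le
            exact div_le_div_of_nonneg_right (by norm_num) hD0.le
          linarith
        · have h2 : e * (2 / 3 * N) ≤ e * (N - t g) := mul_le_mul_of_nonneg_left hyN he0.le
          have h3 : 20 * D ≤ e * (2 / 3 * N) := by
            have h4 : e * (2 / 3 * N) = 12 / 5 * N / D := by rw [he]; ring
            rw [h4, le_div_iff₀ hD0]
            have h5 : 20 * D * D = 40 * b := by
              calc 20 * D * D = 20 * D ^ 2 := by ring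
                _ = 40 * b := by rw [hD2]; ring
            rw [h5]
            nlinarith
          linarith
        · have h2 := ht1 (g + 1) (by omega)
          have h3 := hge (b - (g + 1)) (by omega)
          have h4 : t (g + 1) < s b := by omega
          rw [hNdef]
          exact_mod_cast h4
    have hlast := hW g0 le_rfl
    have h3t := hno g0 le_rfl
    have hyN : 2 / 3 * N ≤ N - t g0 := by linarith
    have hup : ((t g0 : ℝ) + b) / (N - t g0) ≤ (N / 3 + b) / (2 / 3 * N) := by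
      apply div_le_div₀ (by positivity) (by linarith) (by positivity) hyN
    have h1 : (2 - e) ^ g0 * b ≤ N / 2 + 3 / 2 * b := by
      have h2 : (2 - e) ^ g0 * (b / N) ≤ (N / 3 + b) / (2 / 3 * N) := hlast.trans hup
      have h3 : (2 - e) ^ g0 * (b / N) = ((2 - e) ^ g0 * b) / N := by ring
      have h4 : (N / 3 + b) / (2 / 3 * N) = (N / 2 + 3 / 2 * b) / N := by
        field_simp
        try ring
      rw [h3, h4] at h2
      exact (div_le_div_iff_of_pos_right hN0).1 h2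
    have h2 : (2 - e) ^ g0 = 2 ^ g0 * (1 - 9 / 5 / D) ^ g0 := by
      rw [← mul_pow]; congr 1; rw [he]; ring
    have h3 := pow_bound hD10 g0 hg0D
    have h4 : N < 16 * 2 ^ g0 := by
      have h5 : (2 : ℝ) ^ D ≤ 2 ^ ((n : ℝ) + 1) :=
        Real.rpow_le_rpow_of_exponent_le (by norm_num) hDn.le
      have h6 : (2 : ℝ) ^ ((n : ℝ) + 1) = 16 * 2 ^ g0 := by
        have : ((n : ℝ) + 1) = ((g0 + 4 : ℕ) : ℝ) := by rw [hg0]; push_cast; ring
        rw [this, Real.rpow_natCast, pow_add]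
        norm_num
        ring
      linarith
    have hg7 : 7 ≤ g0 := by omega
    have h5 : (128 : ℝ) ≤ 2 ^ g0 := by
      calc (128 : ℝ) = 2 ^ 7 := by norm_num
        _ ≤ 2 ^ g0 := pow_le_pow_right₀ (by norm_num) hg7
    rw [h2] at h1
    have h6 : (2 : ℝ) ^ g0 * (165 / 1000) * b ≤ 2 ^ g0 * (1 - 9 / 5 / D) ^ g0 * b := by
      apply mul_le_mul_of_nonneg_right _ (by positivity)
      exact mul_le_mul_of_nonneg_left h3 (by positivity)
    have h7 : (3 / 2 : ℝ) * b ≤ 3 / 256 * b * 2 ^ g0 := by nlinarith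
    have h8 : (2 : ℝ) ^ g0 * (165 / 1000 * b - 8 - 3 / 256 * b) ≤ 0 := by nlinarith
    have h9 : (0 : ℝ) < 2 ^ g0 * (165 / 1000 * b - 8 - 3 / 256 * b) := by
      apply mul_pos (by positivity)
      linarith
    linarith
  obtain ⟨g1, hg1, hg1t⟩ := hex
  have hg1pos : 1 ≤ g1 := by
    rcases Nat.eq_zero_or_pos g1 with h | h
    · rw [h, ht0] at hg1t
      simp at hg1t
      linarith
    · exact h
  have hex2 : ∃ g, 1 ≤ g ∧ g ≤ g0 + 1 ∧ M ≤ 2 * (t g : ℝ) := by
    by_cases h : 2 * (t g1 : ℝ) ≤ M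
    · refine ⟨g1 + 1, by omega, by omega, ?_⟩
      have hgb : (g1 : ℝ) < b := by
        have : g1 < b := by omega
        exact_mod_cast this
      exact last_step hg1t.le h hMN hN0 (by positivity) hgb (ht2 g1 (by omega))
    · exact ⟨g1, hg1pos, by omega, (not_le.1 h).le⟩
  obtain ⟨g, hgp, hgg, hgM⟩ := hex2
  have h1 := ht1 g (by omega)
  have h1' : (s (b - g) : ℝ) + t g ≤ N := by rw [hNdef]; exact_mod_cast h1
  have h2 := ih (b - g) (by omega) (by omega)
  rw [Nat.cast_sub (by omega)] at h2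
  set A := Real.sqrt (2 * ((b : ℝ) - g)) with hA
  have hAlow : D - 1 + 5 / 4 / D ≤ A := by
    apply Real.le_sqrt_of_sq_le
    have hgD : (g : ℝ) ≤ D - 2 := by
      have h3 : (g : ℝ) ≤ g0 + 1 := by exact_mod_cast hgg
      linarith
    have h4 : (D - 1 + 5 / 4 / D) ^ 2 = D ^ 2 - 2 * D + 1 + 5 / 2 - 5 / 2 / D + 25 / 16 / D ^ 2 := by
      field_simp
      ring
    rw [h4, hD2]
    have h5 : (25 / 16 : ℝ) / (2 * b) ≤ 1 / 2 := by
      rw [div_le_div_iff₀ (by positivity) (by norm_num)]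
      linarith
    have h6 : 0 ≤ 5 / 2 / D := by positivity
    linarith
  have hAB : 0 ≤ A + B - 2 * D + 1 := by
    have : 101 / 100 / D ≤ 5 / 4 / D := div_le_div_of_nonneg_right (by norm_num) hD0.le
    linarith
  have k1 := two_rpow_ge (A - D + 1)
  have k2 := two_rpow_ge (B - D)
  have e1 : (2 : ℝ) ^ A = 2 ^ D / 2 * 2 ^ (A - D + 1) := by
    have : A = D + (A - D + 1) - 1 := by ring
    calc (2 : ℝ) ^ A = 2 ^ (D + (A - D + 1) - 1) := by rw [← this]
      _ = 2 ^ (D + (A - D + 1)) / 2 ^ (1 : ℝ) := by rw [Real.rpow_sub (by norm_num)]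
      _ = _ := by rw [Real.rpow_add (by norm_num), Real.rpow_one]; ring
  have e2 : (2 : ℝ) ^ B = 2 ^ D * 2 ^ (B - D) := by
    rw [← Real.rpow_add (by norm_num)]; congr 1; ring
  have hpos : (0 : ℝ) < 2 ^ D := by positivity
  have k3 : (2 : ℝ) ^ D / 2 * (1 + (A - D + 1) * Real.log 2) ≤ 2 ^ A := by
    rw [e1]; exact mul_le_mul_of_nonneg_left k1 (by positivity)
  have k4 : (2 : ℝ) ^ D * (1 + (B - D) * Real.log 2) ≤ 2 ^ B := by
    rw [e2]; exact mul_le_mul_of_nonneg_left k2 (by positivity)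
  have k5 : 0 ≤ (2 : ℝ) ^ D * ((A + B - 2 * D + 1) * Real.log 2) := by positivity
  have k6 : (2 : ℝ) ^ A + 2 ^ B / 2 ≤ N := by linarith
  nlinarith

/-- The sharp form of the numeric lemma, as a lower bound for the sequence. -/
theorem sharp_lower (v u : ℕ) (hu : 1 ≤ u) (s : ℕ → ℕ) (hmono : ∀ b, b < v → s b ≤ s (b + 1))
    (hge : ∀ b, b ≤ v → b ≤ s b)
    (hseq : ∀ b, 1 ≤ b → b ≤ v → ∃ t : ℕ → ℕ, t 0 = 0 ∧ (∀ g, g ≤ b → s (b - g) + t g ≤ s b) ∧
      ∀ g, g < b → ((s b : ℤ) - t g + u) * ((b : ℤ) - g) +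
        ((t g : ℤ) + g) * ((s (b - 1) : ℤ) + u - 2 * t g)
        ≤ ((s b : ℤ) - t g + b - g) * ((t (g + 1) : ℤ) - t g)) :
    ∀ b : ℕ, 3 ≤ b → b ≤ v → (2 : ℝ) ^ Real.sqrt (2 * b) ≤ s b := by
  have hu' : (1 : ℤ) ≤ u := by exact_mod_cast hu
  have hpoly := poly_bound v s hge (by
    intro b hb1 hbv
    obtain ⟨t, a1, a2, a3⟩ := hseq b hb1 hbv
    refine ⟨t, a1, a2, ?_⟩
    intro g hg
    have h1 := a3 g hg
    have h2 : (g : ℤ) < b := by exact_mod_cast hg
    have h3 : 0 ≤ ((u : ℤ) - 1) * ((b : ℤ) - g) := mul_nonneg (by linarith) (by linarith)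
    have h4 : 0 ≤ ((u : ℤ) - 1) * ((t g : ℤ) + g) := mul_nonneg (by linarith) (by positivity)
    nlinarith)
  intro b
  induction b using Nat.strong_induction_on with
  | _ b ih =>
    intro h3 hbv
    rcases Nat.lt_or_ge 52 b with h52 | h52
    · obtain ⟨t, a1, a2, a3⟩ := hseq b (by omega) hbv
      refine big_step (by omega) (fun c hc => hmono c (by omega)) (fun c hc => hge c (by omega))
        (hpoly b hbv) (fun c hc hcb => ih c hcb hc (by omega)) t a1 a2 ?_
      intro g hg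
      have h1 := a3 g hg
      have h2 : (g : ℤ) < b := by exact_mod_cast hg
      have h3 : 0 ≤ (u : ℤ) * ((b : ℤ) - g) := mul_nonneg (by positivity) (by linarith)
      have h4 : 0 ≤ (u : ℤ) * ((t g : ℤ) + g) := by positivity
      have h5 : ((s b : ℤ) - t g) * ((b : ℤ) - g) + ((t g : ℤ) + g) *
        ((s (b - 1) : ℤ) - 2 * t g) ≤ ((s b : ℤ) - t g + b - g) * ((t (g + 1) : ℤ) - t g) := by
        nlinarith
      exact_mod_cast h5
    · have h1 := small_bound b h3 h52
      have h2 := hpoly b hbv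
      have h2' : (b : ℝ) * (b + 1) ≤ 2 * s b := by exact_mod_cast h2
      linarith

/-- The sharp form of the numeric lemma. -/
theorem numeric_sharp (v u : ℕ) (hu : 1 ≤ u) (s : ℕ → ℕ) (hmono : ∀ b, b < v → s b ≤ s (b + 1))
    (hge : ∀ b, b ≤ v → b ≤ s b)
    (hseq : ∀ b, 1 ≤ b → b ≤ v → ∃ t : ℕ → ℕ, t 0 = 0 ∧ (∀ g, g ≤ b → s (b - g) + t g ≤ s b) ∧
      ∀ g, g < b → ((s b : ℤ) - t g + u) * ((b : ℤ) - g) +
        ((t g : ℤ) + g) * ((s (b - 1) : ℤ) + u - 2 * t g)
        ≤ ((s b : ℤ) - t g + b - g) * ((t (g + 1) : ℤ) - t g)) (hv : 3 ≤ v) :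
    (v : ℝ) ≤ Real.logb 2 (s v) ^ 2 / 2 := by
  have h1 := sharp_lower v u hu s hmono hge hseq v hv le_rfl
  have hpos : (0 : ℝ) < s v := lt_of_lt_of_le (by positivity) h1
  have h2 : Real.sqrt (2 * v) ≤ Real.logb 2 (s v) :=
    (Real.le_logb_iff_rpow_le (by norm_num) hpos).2 h1
  have h3 : Real.sqrt (2 * v) ^ 2 ≤ Real.logb 2 (s v) ^ 2 :=
    pow_le_pow_left₀ (Real.sqrt_nonneg _) h2 2
  rw [Real.sq_sqrt (by positivity)] at h3
  linarith

end Pool.Agent.Helper91.LR
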