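import Mathlib

/-!
Numeric part of the bound on partial transversals of latin rectangles.
-/

namespace Pool.Agent.Helper91.LR

/-- Growth of `u g = t g + g` as long as `t g` is at most a quarter of `N`. -/
theorem growth_step {N M b g t t' : ℤ} (hN : 0 < N) (hM : 7 * N ≤ 8 * M) (hbN : b ≤ N)
    (hg0 : 0 ≤ g) (hgb : g < b) (ht0 : 0 ≤ t) (ht : 4 * t ≤ N)
    (h : (N - t) * (b - g) + (t + g) * (M - 2 * t) ≤ (N - t + b - g) * (t' - t)) :
    19 * (t + g) + 16 ≤ 16 * (t' + g + 1) := by
  have hβ : 0 < b - g := by linarith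
  have h1 : 3 * N ≤ 8 * (M - 2 * t) := by linarith
  have h2 : 3 * N ≤ 4 * (N - t) := by linarith
  have hden : 0 < N - t + b - g := by linarith
  have hden2 : N - t + b - g ≤ 2 * N := by linarith
  have e1 : 3 * N * (b - g) ≤ 4 * ((N - t) * (b - g)) := by nlinarith
  have e2 : 3 * N * (t + g) ≤ 8 * ((t + g) * (M - 2 * t)) := by
    have : 0 ≤ t + g := by linarith
    nlinarith
  have e3 : 3 * N * (t + g) ≤ 8 * ((N - t + b - g) * (t' - t)) := by
    have : 0 ≤ 3 * N * (b - g) := by positivity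
    linarith
  -- t' - t ≥ 0
  have hpos : 0 ≤ t' - t := by
    by_contra hneg
    push Not at hneg
    have : (N - t + b - g) * (t' - t) < 0 := mul_neg_of_pos_of_neg hden hneg
    have h3 : 0 ≤ 3 * N * (t + g) := by
      have : 0 ≤ t + g := by linarith
      positivity
    linarith
  have e4 : (N - t + b - g) * (t' - t) ≤ 2 * N * (t' - t) :=
    mul_le_mul_of_nonneg_right hden2 hpos
  have e5 : N * (3 * (t + g)) ≤ N * (16 * (t' - t)) := by linarith
  have e6 : 3 * (t + g) ≤ 16 * (t' - t) := le_of_mul_le_mul_left e5 hN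
  linarith

/-- Closed form of the growth. -/
theorem growth_iter {u : ℕ → ℝ} (h0 : 0 ≤ u 0) (n : ℕ)
    (h : ∀ g, g < n → 19 / 16 * u g + 1 ≤ u (g + 1)) :
    16 / 3 * ((19 / 16 : ℝ) ^ n - 1) ≤ u n := by
  induction n with
  | zero => simpa using h0
  | succ n ih =>
    have h1 := ih (fun g hg => h g (by omega))
    have h2 := h n (by omega)
    have : (19 / 16 : ℝ) ^ (n + 1) = 19 / 16 * (19 / 16 : ℝ) ^ n := by ring
    rw [this]
    linarith

theorem logb_ge_of_pow {x : ℝ} (hx : 0 < x) {p q : ℕ} (hq : 0 < q) (h : (2 : ℝ) ^ p ≤ x ^ q) :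
    (p : ℝ) / q ≤ Real.logb 2 x := by
  have h1 : Real.logb 2 ((2 : ℝ) ^ p) ≤ Real.logb 2 (x ^ q) :=
    Real.logb_le_logb_of_le (by norm_num) (by positivity) h
  rw [Real.logb_pow, Real.logb_pow, Real.logb_self_eq_one (by norm_num)] at h1
  rw [div_le_iff₀ (by exact_mod_cast hq)]
  linarith

theorem logb_le_of_pow {x : ℝ} (hx : 0 < x) {p q : ℕ} (hq : 0 < q) (h : x ^ q ≤ (2 : ℝ) ^ p) :
    Real.logb 2 x ≤ (p : ℝ) / q := by
  have h1 : Real.logb 2 (x ^ q) ≤ Real.logb 2 ((2 : ℝ) ^ p) :=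
    Real.logb_le_logb_of_le (by norm_num) (by positivity) h
  rw [Real.logb_pow, Real.logb_pow, Real.logb_self_eq_one (by norm_num)] at h1
  rw [le_div_iff₀ (by exact_mod_cast hq)]
  linarith

theorem logb_19_16 : (10 : ℝ) / 41 ≤ Real.logb 2 (19 / 16) := by
  have := logb_ge_of_pow (x := 19 / 16) (by norm_num) (p := 10) (q := 41) (by norm_num)
    (by norm_num)
  simpa using this

theorem logb_79_64 : Real.logb 2 (79 / 64) ≤ (31 : ℝ) / 100 := by
  have := logb_le_of_pow (x := 79 / 64) (by norm_num) (p := 31) (q := 100) (by norm_num)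
    (by norm_num)
  simpa using this

theorem logb_4_3 : (41 : ℝ) / 100 ≤ Real.logb 2 (4 / 3) := by
  have := logb_ge_of_pow (x := 4 / 3) (by norm_num) (p := 41) (q := 100) (by norm_num)
    (by norm_num)
  simpa using this

theorem logb_8_7 : (19 : ℝ) / 100 ≤ Real.logb 2 (8 / 7) := by
  have := logb_ge_of_pow (x := 8 / 7) (by norm_num) (p := 19) (q := 100) (by norm_num)
    (by norm_num)
  simpa using this

/-- If `(19/16)^n ≤ 79/64 * N` then `n ≤ 4.1 (log₂ N + 0.31)`. -/
theorem pow_bound {N : ℝ} (hN : 0 < N) (n : ℕ) (h : (19 / 16 : ℝ) ^ n ≤ 79 / 64 * N) :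
    (n : ℝ) ≤ 41 / 10 * (Real.logb 2 N + 31 / 100) := by
  have h1 : Real.logb 2 ((19 / 16 : ℝ) ^ n) ≤ Real.logb 2 (79 / 64 * N) :=
    Real.logb_le_logb_of_le (by norm_num) (by positivity) h
  rw [Real.logb_pow, Real.logb_mul (by norm_num) hN.ne'] at h1
  have h2 := logb_19_16
  have h3 := logb_79_64
  have hn : (0 : ℝ) ≤ n := Nat.cast_nonneg n
  have h4 : (n : ℝ) * (10 / 41) ≤ n * Real.logb 2 (19 / 16) :=
    mul_le_mul_of_nonneg_left h2 hn
  linarith

/-- The numeric lemma. -/
theorem numeric (v : ℕ) (s : ℕ → ℕ) (hmono : ∀ b, b < v → s b ≤ s (b + 1))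
    (hge : ∀ b, b ≤ v → b ≤ s b)
    (hseq : ∀ b, 1 ≤ b → b ≤ v → ∃ t : ℕ → ℕ, t 0 = 0 ∧ (∀ g, g ≤ b → s (b - g) + t g ≤ s b) ∧
      ∀ g, g < b → ((s b : ℤ) - t g) * ((b : ℤ) - g) + ((t g : ℤ) + g) * ((s (b - 1) : ℤ) - 2 * t g)
        ≤ ((s b : ℤ) - t g + b - g) * ((t (g + 1) : ℤ) - t g)) :
    (v : ℝ) ≤ 5 * (Real.logb 2 (s v) + 1) ^ 2 := by
  have _ := hmono
  suffices H : ∀ b, b ≤ v → (b : ℝ) ≤ 5 * (Real.logb 2 (s b) + 1) ^ 2 from H v le_rfl
  intro b
  induction b using Nat.strong_induction_on with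
  | _ b ih =>
  intro hbv
  rcases Nat.eq_zero_or_pos b with rfl | hb
  · simp only [CharP.cast_eq_zero]
    positivity
  obtain ⟨t, ht0, hts, htstep⟩ := hseq b hb hbv
  have hbs : b ≤ s b := hge b hbv
  have hN1 : 1 ≤ s b := le_trans hb hbs
  have hNr : (1 : ℝ) ≤ (s b : ℝ) := by exact_mod_cast hN1
  have hNpos : (0 : ℝ) < (s b : ℝ) := by linarith
  set L : ℝ := Real.logb 2 (s b) with hL
  have hL0 : 0 ≤ L := Real.logb_nonneg (by norm_num) hNr
  -- comparison with an earlier index
  have key : ∀ (c : ℕ) (r δ : ℝ), c < b → 1 ≤ c → 0 < r → (s c : ℝ) ≤ s b / r → δ ≤ Real.logb 2 r →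
      (c : ℝ) ≤ 5 * (L + 1 - δ) ^ 2 := by
    intro c r δ hcb hc1 hr hcr hδ
    have h1 := ih c hcb (by omega)
    have hsc : 1 ≤ s c := le_trans hc1 (hge c (by omega))
    have hscr : (1 : ℝ) ≤ (s c : ℝ) := by exact_mod_cast hsc
    have h2 : Real.logb 2 (s c) ≤ L - δ := by
      have h3 : Real.logb 2 (s c) ≤ Real.logb 2 (s b / r) :=
        Real.logb_le_logb_of_le (by norm_num) (by linarith) hcr
      rw [Real.logb_div hNpos.ne' hr.ne'] at h3
      linarith
    have h4 : 0 ≤ Real.logb 2 (s c) := Real.logb_nonneg (by norm_num) hscr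
    have h5 : (Real.logb 2 (s c) + 1) ^ 2 ≤ (L + 1 - δ) ^ 2 :=
      pow_le_pow_left₀ (by linarith) (by linarith) 2
    linarith
  by_cases hcase : 8 * s (b - 1) < 7 * s b
  · -- a single step loses a factor 7/8
    rcases Nat.lt_or_ge b 2 with hb2 | hb2
    · have : b = 1 := by omega
      subst this
      have : (1 : ℝ) ≤ (L + 1) ^ 2 := by nlinarith
      push_cast
      linarith
    · have h1 : ((s (b - 1) : ℕ) : ℝ) ≤ s b / (8 / 7) := by
        have : (8 * s (b - 1) : ℝ) < 7 * s b := by exact_mod_cast hcase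
        rw [le_div_iff₀ (by norm_num)]
        linarith
      have h2 := key (b - 1) (8 / 7) (19 / 100) (by omega) (by omega) (by norm_num) h1 logb_8_7
      have h3 : ((b - 1 : ℕ) : ℝ) = (b : ℝ) - 1 := by
        rw [Nat.cast_sub hb]; simp
      rw [h3] at h2
      nlinarith
  · -- fast growth
    push Not at hcase
    have hgrow : ∀ g, g < b → 4 * t g ≤ s b →
        19 / 16 * ((t g : ℝ) + g) + 1 ≤ (t (g + 1) : ℝ) + ((g + 1 : ℕ) : ℝ) := by
      intro g hg htg
      have h1 := growth_step (N := s b) (M := s (b - 1)) (b := b) (g := g) (t := t g)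
        (t' := t (g + 1)) (by exact_mod_cast hN1) (by exact_mod_cast hcase)
        (by exact_mod_cast hbs) (by positivity) (by exact_mod_cast hg) (by positivity)
        (by exact_mod_cast htg) (htstep g hg)
      have h2 : (19 * ((t g : ℝ) + g) + 16) ≤ 16 * ((t (g + 1) : ℝ) + g + 1) := by
        exact_mod_cast h1
      push_cast
      linarith
    have hpow : ∀ n, n ≤ b → (∀ g, g < n → 4 * t g ≤ s b) → 4 * t n ≤ s b →
        (n : ℝ) ≤ 41 / 10 * (L + 31 / 100) := by
      intro n hn hg htn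
      have h1 := growth_iter (u := fun g => (t g : ℝ) + g) (by simp [ht0]) n
        (fun g hgn => hgrow g (by omega) (hg g hgn))
      have h2 : (4 * t n : ℝ) ≤ s b := by exact_mod_cast htn
      have h3 : (n : ℝ) ≤ s b := by exact_mod_cast (le_trans hn hbs)
      apply pow_bound hNpos
      linarith
    by_cases hex : ∃ g, g ≤ b ∧ s b < 4 * t g
    · -- the first index where `t` exceeds a quarter
      classical
      have hfind := Nat.find_spec hex
      set g := Nat.find hex with hgdef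
      have hmin : ∀ g', g' < g → g' ≤ b → 4 * t g' ≤ s b := by
        intro g' hg' hb'
        by_contra hc
        push Not at hc
        exact Nat.find_min hex hg' ⟨hb', hc⟩
      have hg1 : 1 ≤ g := by
        by_contra hc
        have : g = 0 := by omega
        rw [this, ht0] at hfind
        omega
      obtain ⟨hgb, hgt⟩ := hfind
      have h1 := hpow (g - 1) (by omega) (fun g' hg' => hmin g' (by omega) (by omega))
        (hmin (g - 1) (by omega) (by omega))
      have h2 : ((g - 1 : ℕ) : ℝ) = (g : ℝ) - 1 := by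
        rw [Nat.cast_sub hg1]; simp
      rw [h2] at h1
      rcases Nat.lt_or_ge g b with hlt | hge'
      · have h3 : ((s (b - g) : ℕ) : ℝ) ≤ s b / (4 / 3) := by
          have h4 := hts g hgb
          have h5 : (s (b - g) : ℝ) + t g ≤ s b := by exact_mod_cast h4
          have h6 : (s b : ℝ) < 4 * t g := by exact_mod_cast hgt
          rw [le_div_iff₀ (by norm_num)]
          linarith
        have h4 := key (b - g) (4 / 3) (41 / 100) (by omega) (by omega) (by norm_num) h3 logb_4_3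
        have h5 : ((b - g : ℕ) : ℝ) = (b : ℝ) - g := by
          rw [Nat.cast_sub hgb]
        rw [h5] at h4
        nlinarith
      · have : g = b := by omega
        rw [this] at h1
        nlinarith
    · push Not at hex
      have h1 := hpow b le_rfl (fun g hg => hex g (by omega)) (hex b le_rfl)
      nlinarith

end Pool.Agent.Helper91.LR
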