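import Mathlib

/-!
Numeric part (sharp form) of the bound on partial transversals of latin rectangles:
the recursion for the minimal class sizes forces `v ≤ (log2 (s v))² / 2` for `v ≥ 3`.
-/

namespace Pool.Agent.Helper91.LR

/-- The polynomial inequality behind the growth of `(t + b) / (N - t)`. -/
theorem grow_poly {t b y m e g : ℝ} (ht : 0 ≤ t) (hty : 2 * t ≤ y) (hb : 0 ≤ b) (hm : 0 ≤ m)
    (hme : m ≤ 3 / 10 * (e * y)) (he0 : 0 < e) (he1 : e ≤ 2 / 5) (hg0 : 0 ≤ g) (hgb : g ≤ b)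
    (hge : 20 * g ≤ e * y) (hy : 0 < y) :
    (2 - e) * (t + b) * (y ^ 2 - (t + g) * (y - t - m)) ≤
      ((t + b) * (y + (b - g)) + y * (b - g) + (t + g) * (y - t - m)) * y := by
  have hey : 0 < e * y := mul_pos he0 hy
  have hty0 : 0 ≤ t * y := mul_nonneg ht hy.le
  have hby0 : 0 ≤ b * y := mul_nonneg hb hy.le
  have hX : 0 ≤ e * (t * y ^ 2) := by positivity
  have hXb : 0 ≤ e * (b * y ^ 2) := by positivity
  -- (i)
  have i1 : 0 ≤ t ^ 2 * (y - 2 * t) := mul_nonneg (by positivity) (by linarith)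
  have i2 : e * (t ^ 2 * (y - t)) ≤ e * (t * y ^ 2) / 4 := by
    have h1 : t * (y - t) ≤ y ^ 2 / 4 := by nlinarith [sq_nonneg (y - 2 * t)]
    have h2 : t * (t * (y - t)) ≤ t * (y ^ 2 / 4) := mul_le_mul_of_nonneg_left h1 ht
    have h3 := mul_le_mul_of_nonneg_left h2 he0.le
    calc _ = e * (t * (t * (y - t))) := by ring
      _ ≤ _ := h3
      _ = _ := by ring
  have i3 : t * y * m ≤ 3 / 10 * (e * (t * y ^ 2)) := by
    have := mul_le_mul_of_nonneg_left hme hty0
    calc _ ≤ _ := this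
      _ = _ := by ring
  have i4 : 2 * t ^ 2 * m ≤ 3 / 10 * (e * (t * y ^ 2)) := by
    have h1 : 2 * t ^ 2 * m ≤ t * y * m := by
      have : t * (2 * t) * m ≤ t * y * m :=
        mul_le_mul_of_nonneg_right (mul_le_mul_of_nonneg_left hty ht) hm
      calc _ = t * (2 * t) * m := by ring
        _ ≤ _ := this
    linarith
  have i4' : 0 ≤ e * (t ^ 2 * m) := by positivity
  -- (v)
  have i5 : g * (e * (t * y)) ≤ 1 / 50 * (e * (t * y ^ 2)) := by
    have h1 : g ≤ e * y / 20 := by linarith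
    have h2 : e * y / 20 ≤ y / 50 := by nlinarith
    have h3 : g ≤ y / 50 := by linarith
    have h4 : 0 ≤ e * (t * y) := by positivity
    have := mul_le_mul_of_nonneg_right h3 h4
    calc _ ≤ _ := this
      _ = _ := by ring
  have i6 : 2 * g * t ^ 2 ≤ 1 / 20 * (e * (t * y ^ 2)) := by
    have h1 : 2 * g * t ^ 2 ≤ g * (t * y) := by
      have h2 : t * (2 * t) ≤ t * y := mul_le_mul_of_nonneg_left hty ht
      have := mul_le_mul_of_nonneg_left h2 hg0
      calc _ = g * (t * (2 * t)) := by ring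
        _ ≤ _ := this
    have h3 : g ≤ e * y / 20 := by linarith
    have h4 := mul_le_mul_of_nonneg_right h3 hty0
    calc _ ≤ _ := h1
      _ ≤ _ := h4
      _ = _ := by ring
  have hgm : g * m ≤ 3 / 200 * (e * y) * (e * y) := by
    have h3 : g ≤ e * y / 20 := by linarith
    have := mul_le_mul h3 hme hm (by positivity)
    calc _ ≤ _ := this
      _ = _ := by ring
  have hgm2 : g * m ≤ 3 / 500 * e * y ^ 2 := by
    have : 3 / 200 * (e * y) * (e * y) ≤ 3 / 500 * e * y ^ 2 := by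
      have h1 : 0 ≤ (e * y ^ 2) * (2 / 5 - e) := mul_nonneg (by positivity) (by linarith)
      nlinarith
    linarith
  have i7 : 2 * (g * m) * t ≤ 3 / 250 * (e * (t * y ^ 2)) := by
    have := mul_le_mul_of_nonneg_right hgm2 ht
    nlinarith
  have i8 : g * m * y ≤ 3 / 10 * (e * (b * y ^ 2)) := by
    have h1 : g * m ≤ b * (3 / 10 * (e * y)) := mul_le_mul hgb hme hm hb
    have := mul_le_mul_of_nonneg_right h1 hy.le
    calc _ ≤ _ := this
      _ = _ := by ring
  have i9 : 2 * (g * m) * b ≤ 3 / 250 * (e * (b * y ^ 2)) := by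
    have := mul_le_mul_of_nonneg_right hgm2 hb
    nlinarith
  have i10 : 2 * g * (t * b) ≤ b * y * t := by
    have h1 : 2 * g ≤ y := by nlinarith
    have h2 : 0 ≤ t * b := mul_nonneg ht hb
    have := mul_le_mul_of_nonneg_right h1 h2
    calc _ ≤ _ := this
      _ = _ := by ring
  have i11 : 0 ≤ (2 - e) * (t * b) * (y - t - m) := by
    have h1 : m ≤ 3 / 25 * y := by nlinarith
    apply mul_nonneg
    · apply mul_nonneg (by linarith) (mul_nonneg ht hb)
    · nlinarith
  have i12 : 0 ≤ g * (1 - e) * b * y := by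
    have : 0 ≤ 1 - e := by linarith
    positivity
  have i13 : 0 ≤ g * e * (t + m) * (t + b) := by positivity
  have i14 : 0 ≤ b ^ 2 * y := by positivity
  have key : ((t + b) * (y + (b - g)) + y * (b - g) + (t + g) * (y - t - m)) * y -
      (2 - e) * (t + b) * (y ^ 2 - (t + g) * (y - t - m)) =
      e * (b * y ^ 2) + e * (t * y ^ 2) + b * y * t + b ^ 2 * y + t ^ 2 * (y - 2 * t)
      - e * (t ^ 2 * (y - t)) - 2 * t ^ 2 * m + e * (t ^ 2 * m)
      + (2 - e) * (t * b) * (y - t - m) - t * y * m + g * (1 - e) * b * y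
      - g * (e * (t * y)) - g * m * y - 2 * g * t ^ 2 - 2 * (g * m) * t - 2 * g * (t * b)
      - 2 * (g * m) * b + g * e * (t + m) * (t + b) := by
    ring
  have : 0 ≤ ((t + b) * (y + (b - g)) + y * (b - g) + (t + g) * (y - t - m)) * y -
      (2 - e) * (t + b) * (y ^ 2 - (t + g) * (y - t - m)) := by
    rw [key]
    linarith
  linarith

/-- One step of the growth. -/
theorem grow_step {N M t t' b g e : ℝ} (ht : 0 ≤ t) (htN : 3 * t ≤ N) (hN : 0 < N) (hb : 0 ≤ b)
    (hMN : M ≤ N) (hme : N - M ≤ 3 / 10 * (e * (N - t))) (he0 : 0 < e) (he1 : e ≤ 2 / 5)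
    (hg0 : 0 ≤ g) (hgb : g < b) (hge : 20 * g ≤ e * (N - t)) (ht' : t' < N)
    (h : (N - t) * (b - g) + (t + g) * (M - 2 * t) ≤ (N - t + b - g) * (t' - t)) :
    (2 - e) * ((t + b) / (N - t)) ≤ (t' + b) / (N - t') := by
  have hy : 0 < N - t := by linarith
  have hy' : 0 < N - t' := by linarith
  have hP : 0 < N - t + b - g := by linarith
  have key := grow_poly (t := t) (b := b) (y := N - t) (m := N - M) (e := e) (g := g) ht
    (by linarith) hb (by linarith) hme he0 he1 hg0 hgb.le hge hy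
  have e1 : N - t - t - (N - M) = M - 2 * t := by ring
  rw [e1] at key
  rw [← mul_div_assoc, div_le_div_iff₀ hy hy']
  -- multiply by P
  have a1 : (t + b) * ((N - t) + (b - g)) + (N - t) * (b - g) + (t + g) * (M - 2 * t) ≤
      (N - t + b - g) * (t' + b) := by nlinarith
  have b1 : (N - t + b - g) * (N - t') ≤ (N - t) ^ 2 - (t + g) * (M - 2 * t) := by nlinarith
  have h2e : 0 ≤ (2 - e) * (t + b) := mul_nonneg (by linarith) (by linarith)
  have c1 := mul_le_mul_of_nonneg_left b1 h2e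
  have c2 := mul_le_mul_of_nonneg_right a1 hy.le
  have c3 : (N - t + b - g) * ((2 - e) * (t + b) * (N - t')) ≤
      (N - t + b - g) * ((t' + b) * (N - t)) := by
    calc _ = (2 - e) * (t + b) * ((N - t + b - g) * (N - t')) := by ring
      _ ≤ _ := c1
      _ ≤ _ := key
      _ ≤ _ := c2
      _ = _ := by ring
  exact le_of_mul_le_mul_left c3 hP

/-- The last step: from `N / 3 ≤ t ≤ M / 2` one gets `M / 2 ≤ t'`. -/
theorem last_step {N M t t' b g : ℝ} (ht : N ≤ 3 * t) (htM : 2 * t ≤ M) (hMN : M ≤ N)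
    (hN : 0 < N) (hg0 : 0 ≤ g) (hgb : g < b)
    (h : (N - t) * (b - g) + (t + g) * (M - 2 * t) ≤ (N - t + b - g) * (t' - t)) :
    M ≤ 2 * t' := by
  by_contra hcon
  push Not at hcon
  have hy : 0 < N - t := by linarith
  have hP : 0 < N - t + b - g := by linarith
  have hr : t' - t < (M - 2 * t) / 2 := by linarith
  have h1 : (N - t + b - g) * (t' - t) < (N - t + b - g) * ((M - 2 * t) / 2) :=
    mul_lt_mul_of_pos_left hr hP
  have h2 : 0 ≤ g * (M - 2 * t) := mul_nonneg hg0 (by linarith)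
  have h3 : (N - t) * (b - g) + t * (M - 2 * t) < (N - t + (b - g)) * ((M - 2 * t) / 2) := by
    nlinarith
  -- (M-2t)/2 * (N - 3t) + (b-g) * ((M-2t)/2 - (N-t)) > 0
  have h4 : (M - 2 * t) / 2 * (N - 3 * t) ≤ 0 :=
    mul_nonpos_of_nonneg_of_nonpos (by linarith) (by linarith)
  have h5 : (b - g) * ((M - 2 * t) / 2 - (N - t)) ≤ 0 :=
    mul_nonpos_of_nonneg_of_nonpos (by linarith) (by linarith)
  nlinarith

end Pool.Agent.Helper91.LR
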