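import Pool.Agent.Helper35.LR.Defs
import Pool.Agent.Helper35.LR.Basic

/-! Statement part for MP_c8dff2_co: `pt` of the transposed array, symmetry of `L`, existence of
latin rectangles, and the link with maximum partial transversals. -/

namespace LR

open Finset

variable {h k n : ℕ}

lemma IsPT.card_le_left {R : Fin h → Fin k → Fin n} {T : Finset (Fin h × Fin k)}
    (hT : IsPT R T) : T.card ≤ h := by
  have h1 : (T.image Prod.fst).card = T.card := by
    apply card_image_of_injOn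
    intro x hx y hy e
    by_contra hne
    exact (hT x hx y hy hne).1 e
  rw [← h1]
  calc _ ≤ (univ : Finset (Fin h)).card := card_le_univ _
    _ = h := by simp

lemma IsPT.card_le_right {R : Fin h → Fin k → Fin n} {T : Finset (Fin h × Fin k)}
    (hT : IsPT R T) : T.card ≤ k := by
  have h1 : (T.image Prod.snd).card = T.card := by
    apply card_image_of_injOn
    intro x hx y hy e
    by_contra hne
    exact (hT x hx y hy hne).2.1 e
  rw [← h1]
  calc _ ≤ (univ : Finset (Fin k)).card := card_le_univ _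
    _ = k := by simp

lemma isPT_empty (R : Fin h → Fin k → Fin n) : IsPT R ∅ := by
  intro x hx
  simp at hx

lemma ptSet_nonempty (R : Fin h → Fin k → Fin n) :
    {t | ∃ T : Finset (Fin h × Fin k), IsPT R T ∧ T.card = t}.Nonempty :=
  ⟨0, ∅, isPT_empty R, rfl⟩

lemma ptSet_bddAbove (R : Fin h → Fin k → Fin n) :
    BddAbove {t | ∃ T : Finset (Fin h × Fin k), IsPT R T ∧ T.card = t} := by
  refine ⟨h, ?_⟩
  rintro t ⟨T, hT, rfl⟩
  exact hT.card_le_left

/-- the maximum is attained -/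
lemma exists_pt (R : Fin h → Fin k → Fin n) :
    ∃ T : Finset (Fin h × Fin k), IsPT R T ∧ T.card = pt R :=
  Nat.sSup_mem (ptSet_nonempty R) (ptSet_bddAbove R)

lemma IsPT.card_le_pt {R : Fin h → Fin k → Fin n} {T : Finset (Fin h × Fin k)}
    (hT : IsPT R T) : T.card ≤ pt R :=
  le_csSup (ptSet_bddAbove R) ⟨T, hT, rfl⟩

lemma pt_le_left (R : Fin h → Fin k → Fin n) : pt R ≤ h := by
  obtain ⟨T, hT, e⟩ := exists_pt R
  rw [← e]
  exact hT.card_le_left

lemma pt_le_right (R : Fin h → Fin k → Fin n) : pt R ≤ k := by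
  obtain ⟨T, hT, e⟩ := exists_pt R
  rw [← e]
  exact hT.card_le_right

/-- a maximum partial transversal in the sense of `MaxPT` -/
lemma exists_maxPT (R : Fin h → Fin k → Fin n) :
    ∃ T : Finset (Fin h × Fin k), MaxPT R T ∧ T.card = pt R := by
  obtain ⟨T, hT, e⟩ := exists_pt R
  refine ⟨T, ⟨hT, ?_⟩, e⟩
  intro T' hT'
  rw [e]
  exact IsPT.card_le_pt hT'

lemma IsPT.transpose {R : Fin h → Fin k → Fin n} {T : Finset (Fin h × Fin k)}
    (hT : IsPT R T) : IsPT (fun c r => R r c) (T.map (Equiv.prodComm _ _).toEmbedding) := by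
  intro x hx y hy hne
  obtain ⟨x', hx', rfl⟩ := mem_map.1 hx
  obtain ⟨y', hy', rfl⟩ := mem_map.1 hy
  have h1 : x' ≠ y' := by rintro rfl; exact hne rfl
  obtain ⟨a, b, c⟩ := hT x' hx' y' hy' h1
  exact ⟨b, a, c⟩

lemma pt_le_pt_flip (R : Fin h → Fin k → Fin n) : pt R ≤ pt (fun c r => R r c) := by
  obtain ⟨T, hT, e⟩ := exists_pt R
  rw [← e]
  have := hT.transpose.card_le_pt
  rwa [card_map] at this

lemma pt_flip (R : Fin h → Fin k → Fin n) : pt (fun c r => R r c) = pt R :=
  le_antisymm (pt_le_pt_flip (fun c r => R r c)) (pt_le_pt_flip R)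

lemma IsLatin.flip {R : Fin h → Fin k → Fin n} (hR : IsLatin R) :
    IsLatin (fun c r => R r c) := ⟨hR.2, hR.1⟩

lemma L_set_comm (h k n : ℕ) : {t | ∃ R : Fin h → Fin k → Fin n, IsLatin R ∧ pt R = t} =
    {t | ∃ R : Fin k → Fin h → Fin n, IsLatin R ∧ pt R = t} := by
  ext t
  constructor
  · rintro ⟨R, hR, rfl⟩
    exact ⟨_, hR.flip, pt_flip R⟩
  · rintro ⟨R, hR, rfl⟩
    exact ⟨_, hR.flip, pt_flip R⟩

lemma L_comm (h k n : ℕ) : L h k n = L k h n := by
  unfold L
  rw [L_set_comm]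

/-- a latin rectangle exists -/
lemma exists_latin (hh : h ≤ n) (hk : k ≤ n) : ∃ R : Fin h → Fin k → Fin n, IsLatin R := by
  rcases Nat.eq_zero_or_pos n with rfl | hn
  · obtain rfl : h = 0 := by omega
    exact ⟨fun r => r.elim0, fun r => r.elim0, fun c r => r.elim0⟩
  · refine ⟨fun r c => ⟨(r.val + c.val) % n, Nat.mod_lt _ hn⟩, ?_, ?_⟩
    · intro r c c' e
      have e1 : (r.val + c.val) % n = (r.val + c'.val) % n := by
        simpa using congrArg Fin.val e
      have e2 : c.val ≡ c'.val [MOD n] := Nat.ModEq.add_left_cancel' _ e1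
      have e3 : c.val = c'.val := by
        have h1 := Nat.mod_eq_of_lt (lt_of_lt_of_le c.isLt hk)
        have h2 := Nat.mod_eq_of_lt (lt_of_lt_of_le c'.isLt hk)
        rw [Nat.ModEq, h1, h2] at e2
        exact e2
      exact Fin.ext e3
    · intro c r r' e
      have e1 : (r.val + c.val) % n = (r'.val + c.val) % n := by
        simpa using congrArg Fin.val e
      have e2 : r.val ≡ r'.val [MOD n] := Nat.ModEq.add_right_cancel' _ e1
      have e3 : r.val = r'.val := by
        have h1 := Nat.mod_eq_of_lt (lt_of_lt_of_le r.isLt hh)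
        have h2 := Nat.mod_eq_of_lt (lt_of_lt_of_le r'.isLt hh)
        rw [Nat.ModEq, h1, h2] at e2
        exact e2
      exact Fin.ext e3

/-- the minimum is attained -/
lemma exists_L (hh : h ≤ n) (hk : k ≤ n) :
    ∃ R : Fin h → Fin k → Fin n, IsLatin R ∧ pt R = L h k n := by
  obtain ⟨R, hR⟩ := exists_latin hh hk
  exact Nat.sInf_mem (s := {t | ∃ R : Fin h → Fin k → Fin n, IsLatin R ∧ pt R = t})
    ⟨_, R, hR, rfl⟩

lemma L_le {R : Fin h → Fin k → Fin n} (hR : IsLatin R) : L h k n ≤ pt R :=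
  Nat.sInf_le ⟨R, hR, rfl⟩

lemma L_le_min (hh : h ≤ n) (hk : k ≤ n) : L h k n ≤ min h k := by
  obtain ⟨R, _, e⟩ := exists_L hh hk
  rw [← e]
  exact le_min (pt_le_left R) (pt_le_right R)

end LR
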